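import Pool.Agent.L5helper32.GR.Defs

/-! Job 77 for helper32: events that depend on finitely many residues. -/

set_option autoImplicit false

open Finset MeasureTheory ProbabilityTheory

namespace Pool.Agent.L5helper75.GR

open Pool.Agent.L5helper32.GR

/-- The event as a preimage under the restriction to the indices in `S`. -/
theorem dep_pre {ι Ω : Type} (T : ι → Ω → ℕ) {S : Finset ι} {A : Set (ι → ℕ)} (hA : Dep S A) :
    ∃ A' : Set (S → ℕ), {ω | (fun i => T i ω) ∈ A} = (fun ω (i : S) => T i ω) ⁻¹' A' := by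
  classical
  refine ⟨{h | (fun i => if hi : i ∈ S then h ⟨i, hi⟩ else 0) ∈ A}, ?_⟩
  ext ω
  simp only [Set.mem_ofPred_eq, Set.mem_preimage]
  apply hA
  intro i hi
  simp [hi]

theorem dep_meas {ι Ω : Type} [MeasurableSpace Ω] {T : ι → Ω → ℕ} (hm : ∀ i, Measurable (T i))
    {S : Finset ι} {A : Set (ι → ℕ)} (hA : Dep S A) :
    MeasurableSet {ω | (fun i => T i ω) ∈ A} := by
  obtain ⟨A', h⟩ := dep_pre T hA
  rw [h]
  have hmm : Measurable (fun ω (i : S) => T i ω) := measurable_pi_lambda _ fun i => hm i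
  exact hmm MeasurableSet.of_discrete

theorem dep_indep {ι Ω : Type} [MeasurableSpace Ω] {μ : Measure Ω} [IsProbabilityMeasure μ]
    {T : ι → Ω → ℕ} (hm : ∀ i, Measurable (T i)) (hi : iIndepFun T μ) {S S' : Finset ι}
    (hd : Disjoint S S') {A B : Set (ι → ℕ)} (hA : Dep S A) (hB : Dep S' B) :
    μ.real {ω | (fun i => T i ω) ∈ A ∧ (fun i => T i ω) ∈ B}
      = μ.real {ω | (fun i => T i ω) ∈ A} * μ.real {ω | (fun i => T i ω) ∈ B} := by
  obtain ⟨A', h⟩ := dep_pre T hA
  obtain ⟨B', h'⟩ := dep_pre T hB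
  have key := (hi.indepFun_finset S S' hd hm).measure_inter_preimage_eq_mul A' B'
    MeasurableSet.of_discrete MeasurableSet.of_discrete
  rw [Set.ofPred_and, h, h', Measure.real, key, ENNReal.toReal_mul]
  rfl

theorem indep_forall {ι Ω : Type} [MeasurableSpace Ω] {μ : Measure Ω} [IsProbabilityMeasure μ]
    {T : ι → Ω → ℕ} (_hm : ∀ i, Measurable (T i)) (hi : iIndepFun T μ) (R : Finset ι)
    (P : ι → ℕ → Prop) :
    μ.real {ω | ∀ i ∈ R, P i (T i ω)} = ∏ i ∈ R, μ.real {ω | P i (T i ω)} := by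
  have key := hi.measure_inter_preimage_eq_mul R (sets := fun i => {t | P i t})
    fun i _ => MeasurableSet.of_discrete
  have h : {ω | ∀ i ∈ R, P i (T i ω)} = ⋂ i ∈ R, T i ⁻¹' {t | P i t} := by
    ext ω
    simp
  rw [h, Measure.real, key, ENNReal.toReal_prod]
  rfl

end Pool.Agent.L5helper75.GR
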