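import Pool.Agent.L5helper32.GR.Defs2

/-! Job 114 for helper32: the recursion and its descents. -/

set_option autoImplicit false

open Finset MeasureTheory ProbabilityTheory

namespace Pool.Agent.L5helper32.GR

private theorem jpos (p : ℕ) (T : ℕ → ℕ) (x : ℕ) : 1 ≤ jump p T x :=
  Nat.one_le_iff_ne_zero.2 (Finset.prod_pos fun r hr =>
    (Nat.prime_of_mem_primeFactors (Finset.mem_filter.1 hr).1).pos).ne'

private theorem jcongr (p : ℕ) {T T' : ℕ → ℕ} {x : ℕ} (h : ∀ r ∈ x.primeFactors, T r = T' r) :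
    jump p T x = jump p T' x := by
  unfold jump
  congr 1
  apply Finset.filter_congr
  intro r hr
  rw [h r hr]

private theorem seq_succ_zero {p : ℕ} {T : ℕ → ℕ → ℕ} {n : ℕ} (hn : 1 ≤ n) (h : seq p T n = 0) :
    seq p T (n + 1) = (n + 1) ^ p - 1 := by
  obtain ⟨m, rfl⟩ : ∃ m, n = m + 1 := ⟨n - 1, by omega⟩
  rw [seq, if_pos h]

private theorem seq_succ_ne {p : ℕ} {T : ℕ → ℕ → ℕ} {n : ℕ} (hn : 1 ≤ n) (h : seq p T n ≠ 0) :
    seq p T (n + 1) = seq p T n - jump p (T (seq p T n + n)) (seq p T n) := by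
  obtain ⟨m, rfl⟩ : ∃ m, n = m + 1 := ⟨n - 1, by omega⟩
  rw [seq, if_neg h]

theorem seq_two (p : ℕ) (T : ℕ → ℕ → ℕ) : seq p T 2 = 0 := by
  have h1 : seq p T 1 = 1 := rfl
  have := seq_succ_ne (p := p) (T := T) le_rfl (by rw [h1]; exact one_ne_zero)
  rw [show (2 : ℕ) = 1 + 1 from rfl, this, h1]
  have := jpos p (T (1 + 1)) 1
  omega

private theorem val_le' (p : ℕ) (T : ℕ → ℕ → ℕ) (z i : ℕ) :
    val p T z i ≤ (z + 1) ^ p - 1 - i := by
  induction i with
  | zero => simp [val]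
  | succ i ih =>
    rw [val]
    have := jpos p (T (val p T z i + (z + 1 + i))) (val p T z i)
    omega

private theorem seq_val {p : ℕ} (T : ℕ → ℕ → ℕ) {z : ℕ} (hz : 1 ≤ z) (h : seq p T z = 0) (i : ℕ)
    (hi : ∀ i' < i, val p T z i' ≠ 0) : seq p T (z + 1 + i) = val p T z i := by
  induction i with
  | zero => rw [add_zero, seq_succ_zero hz h, val]
  | succ i ih =>
    have h1 := ih fun i' hi' => hi i' (by omega)
    have h2 : seq p T (z + 1 + i) ≠ 0 := by rw [h1]; exact hi i (by omega)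
    rw [← add_assoc, seq_succ_ne (by omega) h2, val, h1]

private theorem lt_nz (p : ℕ) (T : ℕ → ℕ → ℕ) (z : ℕ) : z < nextZero p T z := by
  unfold nextZero; omega

/-- After the zero `z` the next zero is `nextZero`. -/
theorem seq_next {p : ℕ} (hp : 1 ≤ p) (T : ℕ → ℕ → ℕ) {z : ℕ} (hz : 1 ≤ z) (h : seq p T z = 0) :
    seq p T (nextZero p T z) = 0 ∧ ∀ n, z < n → n < nextZero p T z → seq p T n ≠ 0 := by
  have hne : {i | val p T z i = 0}.Nonempty :=
    ⟨(z + 1) ^ p - 1, by
      have := val_le' p T z ((z + 1) ^ p - 1)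
      show val p T z ((z + 1) ^ p - 1) = 0
      omega⟩
  have h0 : val p T z (sInf {i | val p T z i = 0}) = 0 := Nat.sInf_mem hne
  have hlt : ∀ i < sInf {i | val p T z i = 0}, val p T z i ≠ 0 :=
    fun i hi h' => Nat.notMem_of_lt_sInf hi h'
  refine ⟨?_, ?_⟩
  · unfold nextZero
    rw [seq_val T hz h _ hlt, h0]
  · intro n hn hn'
    unfold nextZero at hn'
    obtain ⟨i, rfl⟩ : ∃ i, n = z + 1 + i := ⟨n - (z + 1), by omega⟩
    rw [seq_val T hz h i fun i' hi' => hlt i' (by omega)]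
    exact hlt i (by omega)

private theorem seq_le {p : ℕ} (T : ℕ → ℕ → ℕ) {m : ℕ} (hm : 2 ≤ m) :
    seq p T m ≤ m ^ p - 1 := by
  induction m, hm using Nat.le_induction with
  | base => rw [seq_two]; exact Nat.zero_le _
  | succ m hm ih =>
    by_cases h : seq p T m = 0
    · rw [seq_succ_zero (by omega) h]
    · rw [seq_succ_ne (by omega) h]
      have h1 : m ^ p ≤ (m + 1) ^ p := Nat.pow_le_pow_left (by omega) p
      omega

theorem seq_congr {p : ℕ} (hp : 1 ≤ p) {T T' : ℕ → ℕ → ℕ} {n : ℕ}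
    (h : ∀ c ≤ lev p (n - 1), ∀ r ≤ lev p (n - 1), T c r = T' c r) : seq p T n = seq p T' n := by
  have key : ∀ m, 1 ≤ m → m ≤ n → seq p T m = seq p T' m := by
    intro m hm
    induction m, hm using Nat.le_induction with
    | base => intro _; rfl
    | succ m hm ih =>
      intro hmn
      have ih' := ih (by omega)
      by_cases h2 : m = 1
      · subst h2
        rw [show (1 : ℕ) + 1 = 2 from rfl, seq_two, seq_two]
      have hm2 : 2 ≤ m := by omega
      by_cases h0 : seq p T m = 0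
      · rw [seq_succ_zero hm h0, seq_succ_zero hm (by rw [← ih', h0])]
      · rw [seq_succ_ne hm h0, seq_succ_ne hm (by rw [← ih']; exact h0), ← ih']
        have hle := seq_le (p := p) T hm2
        have h1 : m ^ p ≤ (n - 1 + 1) ^ p := Nat.pow_le_pow_left (by omega) p
        have h3 : 1 ≤ m ^ p := Nat.one_le_pow _ _ (by omega)
        have hl : lev p (n - 1) = (n - 1 + 1) ^ p + (n - 1) := rfl
        congr 1
        apply jcongr
        intro r hr
        apply h
        · omega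
        · have := Nat.le_of_mem_primeFactors hr
          omega
  rcases Nat.eq_zero_or_pos n with rfl | hn
  · rfl
  · exact key n hn le_rfl

private theorem lev_mono (p : ℕ) {a b : ℕ} (h : a ≤ b) : lev p a ≤ lev p b := by
  unfold lev
  have : (a + 1) ^ p ≤ (b + 1) ^ p := Nat.pow_le_pow_left (by omega) p
  omega

private theorem seq_agree {p : ℕ} (hp : 1 ≤ p) {z n : ℕ} (hn : n ≤ z) {f g : ℕ × ℕ → ℕ}
    (h : ∀ i ∈ range (lev p (z - 1) + 1) ×ˢ range (lev p (z - 1) + 1), f i = g i) :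
    seq p (cur f) n = seq p (cur g) n := by
  apply seq_congr hp
  intro c hc r hr
  have hl := lev_mono p (show n - 1 ≤ z - 1 by omega)
  apply h
  rw [Finset.mem_product, Finset.mem_range, Finset.mem_range]
  constructor
  · show c < _
    omega
  · show r < _
    omega

theorem dep_FZ {p : ℕ} (hp : 1 ≤ p) (m z : ℕ) :
    Dep (range (lev p (z - 1) + 1) ×ˢ range (lev p (z - 1) + 1)) (FZ p m z) := by
  intro f g h
  have key : ∀ n ≤ z, seq p (cur f) n = seq p (cur g) n := fun n hn => seq_agree hp hn h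
  constructor
  · rintro ⟨h1, h2, h3⟩
    refine ⟨h1, (key z le_rfl) ▸ h2, fun n hn hn' => ?_⟩
    rw [← key n hn'.le]
    exact h3 n hn hn'
  · rintro ⟨h1, h2, h3⟩
    refine ⟨h1, (key z le_rfl) ▸ h2, fun n hn hn' => ?_⟩
    rw [key n hn'.le]
    exact h3 n hn hn'

theorem dep_seq {p : ℕ} (hp : 1 ≤ p) (z : ℕ) :
    Dep (range (lev p (z - 1) + 1) ×ˢ range (lev p (z - 1) + 1))
      {f : ℕ × ℕ → ℕ | seq p (cur f) z = 0} := by
  intro f g h
  show seq p (cur f) z = 0 ↔ seq p (cur g) z = 0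
  rw [seq_agree hp le_rfl h]

private theorem descend {p : ℕ} (T : ℕ → ℕ → ℕ) (x : ℕ) :
    ∀ n, 1 ≤ n → seq p T n ≤ x → ∃ i ≤ x, seq p T (n + i) = 0 := by
  induction x with
  | zero => intro n _ h; exact ⟨0, le_rfl, by simpa using h⟩
  | succ x ih =>
    intro n hn h
    by_cases h0 : seq p T n = 0
    · exact ⟨0, Nat.zero_le _, h0⟩
    · have h1 := seq_succ_ne hn h0
      have h2 := jpos p (T (seq p T n + n)) (seq p T n)
      obtain ⟨i, hi, hi'⟩ := ih (n + 1) (by omega) (by omega)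
      exact ⟨i + 1, by omega, by rw [← hi']; congr 1; omega⟩

/-- There is a first zero after `m`. -/
theorem exists_FZ {p : ℕ} (hp : 1 ≤ p) {m : ℕ} (hm : 2 ≤ m) (f : ℕ × ℕ → ℕ) :
    ∃ z ∈ Ioc m (lev p m), f ∈ FZ p m z := by
  classical
  obtain ⟨i, hi, hi'⟩ := descend (p := p) (cur f) ((m + 1) ^ p - 1) (m + 1) (by omega)
    (seq_le (cur f) (by omega))
  have hex : ∃ z, m < z ∧ seq p (cur f) z = 0 := ⟨m + 1 + i, by omega, hi'⟩
  have hs := Nat.find_spec hex
  have hle : Nat.find hex ≤ m + 1 + i := Nat.find_le ⟨by omega, hi'⟩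
  have h1 : 1 ≤ (m + 1) ^ p := Nat.one_le_pow _ _ (by omega)
  have hl : lev p m = (m + 1) ^ p + m := rfl
  refine ⟨Nat.find hex, Finset.mem_Ioc.2 ⟨hs.1, by omega⟩, hs.1, hs.2, fun n hn hn' h0 => ?_⟩
  exact Nat.find_min hex hn' ⟨hn, h0⟩

theorem FZ_unique {p m z z' : ℕ} {f : ℕ × ℕ → ℕ} (h : f ∈ FZ p m z) (h' : f ∈ FZ p m z') :
    z = z' := by
  obtain ⟨h1, h2, h3⟩ := h
  obtain ⟨h1', h2', h3'⟩ := h'
  rcases lt_trichotomy z z' with hlt | heq | hgt
  · exact absurd h2 (h3' z h1 hlt)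
  · exact heq
  · exact absurd h2' (h3 z' h1' hgt)

/-- If no descent from the zero `n` on is bad, then all zeros from `n` on have good descents. -/
theorem good_of_not_badK {p : ℕ} (hp : 1 ≤ p) {n : ℕ} (hn : 1 ≤ n) {f : ℕ × ℕ → ℕ}
    (h0 : seq p (cur f) n = 0) (h : ∀ k, ¬ BadK p f k n) :
    ∀ z ≥ n, seq p (cur f) z = 0 → GoodRun p (cur f) z := by
  intro z hz hz0
  obtain ⟨d, hd⟩ : ∃ d, z - n = d := ⟨_, rfl⟩
  induction d using Nat.strong_induction_on generalizing n with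
  | _ d ih =>
    rcases Nat.eq_or_lt_of_le hz with heq | hlt
    · subst heq
      by_contra hg
      exact h 1 (Or.inl hg)
    · obtain ⟨hn0, hnn⟩ := seq_next hp (cur f) hn h0
      have hgt := lt_nz p (cur f) n
      have hle : nextZero p (cur f) n ≤ z := by
        by_contra hc
        exact hnn z hlt (by omega) hz0
      exact ih (z - nextZero p (cur f) n) (by omega) (by omega) hn0
        (fun k hk => h (k + 1) (Or.inr hk)) hle rfl

end Pool.Agent.L5helper32.GR
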